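import Mathlib
import Pool.Agent.Helper3_PPX.Geo
import Pool.Agent.Helper17_PRS.Rig
import Pool.Agent.Helper41_PRS.RAM

/-!
# PPX: the module RIG (rigidity)
-/

set_option autoImplicit false

universe u

namespace Pool.Agent.PPX.H24

open MvPolynomial PGH

section

variable {L E : Type u} [Field L] [Field E] [Algebra L E] [IsAlgClosed L] [CharZero L] [FF L E]

/-- an element without simple values at the nonstatic places has height zero -/
theorem ht_zero [CharZero E] {D : Derivation ℤ E E}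
    (hD0 : ∀ P : Place L E, DGe P D 0) {N : ℕ} (hN : 5 ≤ N) (a : Fin N → L) (x : E)
    (ha : Function.Injective a) (hDa : ∀ i, D (algebraMap L E (a i)) = 0) (hx : D x ≠ 0)
    (h : ∀ P : Place L E, (¬ ∀ y, P.Ge 1 y → P.Ge 1 (D y)) →
      ∀ i, P.ord (x - algebraMap L E (a i)) ≠ 1) : ht L x = 0 := by
  classical
  have hsup := fun z : E => (finite_support (L := L) z).exists_finset
  choose S hS using hsup
  set s : Finset (Place L E) :=
    Finset.univ.biUnion (fun i => S (x - algebraMap L E (a i))) with hs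
  have h1 := (Pool.Agent.PRS.H17.count Pool.Agent.PRS.H41.ram hD0 a x ha hDa hx s (by
    intro P hP i
    by_contra h0
    apply hP
    rw [hs, Finset.mem_biUnion]
    exact ⟨i, Finset.mem_univ _, (hS _ P).2 h0⟩)).1
  have h2 : (s.filter (fun P => P ∉ Pool.Agent.PRS.H17.St L D ∧
      ∃ i, P.ord (x - algebraMap L E (a i)) = 1)) = ∅ := by
    rw [Finset.filter_eq_empty_iff]
    rintro P _ ⟨hP, i, hi⟩
    exact h P hP i hi
  rw [h2, Finset.card_empty] at h1
  have h5 : (5 : ℤ) ≤ N := by exact_mod_cast hN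
  have h6 : (0 : ℤ) ≤ ht L x := by positivity
  push_cast at h1
  have h7 : (ht L x : ℤ) ≤ 0 := by nlinarith
  omega

end

theorem rig : Pa2Stmt.{u} → RigStmt.{u} := by
  intro pa2 k L E _ _ _ _ _ _ _ _ _ _ _ _ _ D _hDL hDk hD0 P₀ _hst N₁ N₂ R x z a b α β e c y F
    hN1 hN2 ha hb hxa hzb hrel hc hexc hF hx0 hz0
  set a' : Fin N₁ → L := fun i => algebraMap k L (a i) with ha'
  set b' : Fin N₂ → L := fun j => algebraMap k L (b j) with hb'
  have haa : ∀ i, algebraMap L E (a' i) = algebraMap k E (a i) := by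
    intro i
    rw [ha', ← IsScalarTower.algebraMap_apply]
  have hbb : ∀ j, algebraMap L E (b' j) = algebraMap k E (b j) := by
    intro j
    rw [hb', ← IsScalarTower.algebraMap_apply]
  have hia : Function.Injective a' := fun i j hij => ha ((algebraMap k L).injective hij)
  have hib : Function.Injective b' := fun i j hij => hb ((algebraMap k L).injective hij)
  have hDa : ∀ i, D (algebraMap L E (a' i)) = 0 := by
    intro i
    rw [haa]
    exact hDk _
  have hDb : ∀ j, D (algebraMap L E (b' j)) = 0 := by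
    intro j
    rw [hbb]
    exact hDk _
  have hxa' : ∀ i, x ≠ algebraMap L E (a' i) := by
    intro i
    rw [haa]
    exact hxa i
  have hzb' : ∀ j, z ≠ algebraMap L E (b' j) := by
    intro j
    rw [hbb]
    exact hzb j
  have hrel' : Rels x z (fun i => algebraMap L E (a' i)) (fun j => algebraMap L E (b' j))
      α β e c y := by
    have e1 : (fun i => algebraMap L E (a' i)) = fun i => algebraMap k E (a i) := funext haa
    have e2 : (fun j => algebraMap L E (b' j)) = fun j => algebraMap k E (b j) := funext hbb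
    rw [e1, e2]
    exact hrel
  have hcP : ∀ P : Place L E, (¬ ∀ y, P.Ge 1 y → P.Ge 1 (D y)) → ∀ r, P.ord (c r) = 0 :=
    fun P hP r => ord_zero_of_const (hD0 P) hP (hrel.ne r) (hc r)
  have hp := fun (P : Place L E) (hP : ¬ ∀ y, P.Ge 1 y → P.Ge 1 (D y)) =>
    pa2 P x z a' b' α β e c y hia hib hxa' hzb' hrel' (hcP P hP)
  have hmov : ∀ P : Place L E, Mov D P → ¬ ∀ y, P.Ge 1 y → P.Ge 1 (D y) := by
    rintro P ⟨_, y, hy1, hy2⟩ hcon
    exact hy2 (hcon y hy1)
  have hpat : Pat D a' b' x z ∅ := by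
    refine ⟨?_, ?_⟩
    · intro P _ hM i h1 h2
      exact (hp P (hmov P hM)).1 i h1 h2
    · intro P _ hM j h1 h2
      exact (hp P (hmov P hM)).2 j h1 h2
  obtain ⟨κx, hκx⟩ := hx0
  obtain ⟨κz, hκz⟩ := hz0
  have endx : ht L x = 0 → D x = 0 := fun h0 => Pool.Agent.PRS.H17.end_lemma hDk P₀ κx hκx h0
  have endz : ht L z = 0 → D z = 0 := fun h0 => Pool.Agent.PRS.H17.end_lemma hDk P₀ κz hκz h0
  -- a constant coordinate is regular and avoids the constants at the nonstatic places
  have hordx : D x = 0 → ∀ P : Place L E, (¬ ∀ y, P.Ge 1 y → P.Ge 1 (D y)) →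
      ∀ i, P.ord (x - algebraMap L E (a' i)) = 0 := by
    intro hx P hP i
    refine ord_zero_of_const (hD0 P) hP (sub_ne_zero.2 (hxa' i)) ?_
    rw [map_sub, hx, hDa, sub_zero]
  have hordz : D z = 0 → ∀ P : Place L E, (¬ ∀ y, P.Ge 1 y → P.Ge 1 (D y)) →
      ∀ j, P.ord (z - algebraMap L E (b' j)) = 0 := by
    intro hz P hP j
    refine ord_zero_of_const (hD0 P) hP (sub_ne_zero.2 (hzb' j)) ?_
    rw [map_sub, hz, hDb, sub_zero]
  have hregx : D x = 0 → ∀ P : Place L E, (¬ ∀ y, P.Ge 1 y → P.Ge 1 (D y)) → P.Ge 0 x := by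
    intro hx P hP
    have i0 : Fin N₁ := ⟨0, by omega⟩
    have h5 := (P.ge_ord (y := x - algebraMap L E (a' i0))).mono (hordx hx P hP i0).ge
    have h6 := h5.add (P.ge_const (a' i0))
    rwa [sub_add_cancel] at h6
  have hregz : D z = 0 → ∀ P : Place L E, (¬ ∀ y, P.Ge 1 y → P.Ge 1 (D y)) → P.Ge 0 z := by
    intro hz P hP
    have j0 : Fin N₂ := ⟨0, by omega⟩
    have h5 := (P.ge_ord (y := z - algebraMap L E (b' j0))).mono (hordz hz P hP j0).ge
    have h6 := h5.add (P.ge_const (b' j0))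
    rwa [sub_add_cancel] at h6
  by_cases hx : D x = 0
  · refine ⟨hx, ?_⟩
    by_contra hz
    refine hz (endz (ht_zero hD0 (by omega : 5 ≤ N₂) b' z hib hDb hz ?_))
    intro P hP j hj
    obtain ⟨i, hi⟩ := (hp P hP).2 j hj (hregx hx P hP)
    rw [P.ge_iff (sub_ne_zero.2 (hxa' i)), hordx hx P hP i] at hi
    omega
  · by_cases hz : D z = 0
    · exfalso
      refine hx (endx (ht_zero hD0 (by omega : 5 ≤ N₁) a' x hia hDa hx ?_))
      intro P hP i hi
      obtain ⟨j, hj⟩ := (hp P hP).1 i hi (hregz hz P hP)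
      rw [P.ge_iff (sub_ne_zero.2 (hzb' j)), hordz hz P hP j] at hj
      omega
    · exfalso
      have h := hexc (L := L) (E := E) D (fun _ => 0) ∅ ∅ ⟨fun _ _ => rfl, fun P => by
        simpa using hD0 P⟩ hDk x z hx hz hpat hF
      simp only [Finset.sum_empty, Finset.card_empty] at h
      exact hx (endx (by omega))

end Pool.Agent.PPX.H24
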